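import Pool.Agent.Helper47.EP.Goals
import Pool.Agent.Helper32.PK.NILP

/-!
# Packet EP NIL: idempotents killed by `θ`
-/

set_option autoImplicit false
set_option linter.unusedSectionVars false

namespace Pool.Agent.Helper64.EP.NIL

open MonoidAlgebra Pool.Agent.Helper47.EP

section key

open Pool.Agent.Helper11.PK

/-- the abstract form: a nilpotence argument -/
theorem key (p : ℕ) [Fact p.Prime] {D : Type} [Group D] [Finite D] (hD : IsPGroup p D)
    {S Y : Type} [Ring S] [Ring Y] [Algebra (ZMod p) S] (f : Y →+* S) (dd : D → S)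
    (hmul : ∀ a b, dd (a * b) = dd a * dd b) (hcomm : ∀ d y, dd d * f y = f y * dd d)
    {ι : Type} (s : Finset ι) (d : ι → D) (y : ι → Y) (x : S)
    (hx : x = ∑ i ∈ s, f (y i) * (dd (d i) - dd 1)) (hxx : x * x = x) : x = 0 := by
  obtain ⟨q, hq⟩ := Pool.Agent.Helper32.PK.NILP.nilp p hD
  obtain ⟨φ, hφ⟩ : ∃ φ : MonoidAlgebra (ZMod p) D →ₙₐ[ZMod p] S,
      ∀ g, φ (single g 1) = dd g := by
    refine ⟨MonoidAlgebra.liftMagma (ZMod p) ⟨dd, hmul⟩, fun g => ?_⟩
    simp [MonoidAlgebra.liftMagma_apply_apply]
  have hφc : ∀ (a : MonoidAlgebra (ZMod p) D) (z : Y), φ a * f z = f z * φ a := by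
    intro a z
    induction a using MonoidAlgebra.induction_linear with
    | zero => simp
    | add a b ha hb => rw [map_add, add_mul, mul_add, ha, hb]
    | single g c =>
      have h1 : (single g c : MonoidAlgebra (ZMod p) D) = c • single g 1 := by simp
      rw [h1, map_smul, hφ, smul_mul_assoc, hcomm, mul_smul_comm]
  let I : ℕ → AddSubmonoid S := fun n =>
    AddSubmonoid.closure {z | ∃ (w : Y) (a : MonoidAlgebra (ZMod p) D), a ∈ (aug (ZMod p) D) ^ n ∧
      z = f w * φ a}
  have hI1 : x ∈ I 1 := by
    rw [hx]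
    refine AddSubmonoid.sum_mem _ fun i _ => AddSubmonoid.subset_closure ?_
    refine ⟨y i, single (d i) 1 - single 1 1, ?_, ?_⟩
    · rw [Submodule.pow_one]
      show augHom (ZMod p) D _ = 0
      simp [augHom]
    · rw [map_sub, hφ, hφ]
  have hstep : ∀ m z w, z ∈ I 1 → w ∈ I m → z * w ∈ I (m + 1) := by
    intro m z w hz hw
    have h1 := AddSubmonoid.mul_mem_mul hz hw
    rw [AddSubmonoid.closure_mul_closure] at h1
    refine AddSubmonoid.closure_mono ?_ h1
    rintro _ ⟨_, ⟨w1, a1, ha1, rfl⟩, _, ⟨w2, a2, ha2, rfl⟩, rfl⟩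
    refine ⟨w1 * w2, a1 * a2, ?_, ?_⟩
    · rw [Ideal.IsTwoSided.pow_succ]
      rw [Submodule.pow_one] at ha1
      exact Ideal.mul_mem_mul ha1 ha2
    · show f w1 * φ a1 * (f w2 * φ a2) = _
      rw [map_mul, map_mul, mul_assoc, ← mul_assoc (φ a1), hφc, mul_assoc, mul_assoc]
  have hall : ∀ n, x ∈ I (n + 1) := by
    intro n
    induction n with
    | zero => exact hI1
    | succ n ih =>
      rw [← hxx]
      exact hstep _ _ _ hI1 ih
  have h0 : I (q + 1) = ⊥ := by
    rw [eq_bot_iff]
    refine AddSubmonoid.closure_le.2 ?_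
    rintro _ ⟨w, a, ha, rfl⟩
    rw [Ideal.IsTwoSided.pow_succ, hq, Ideal.mul_bot] at ha
    have ha0 : a = 0 := ha
    rw [ha0, map_zero, mul_zero]
    exact AddSubmonoid.zero_mem _
  have := hall q
  rw [h0] at this
  exact this

end key

section main

variable {p : ℕ} {T : Dat p} {A : Type} [Fintype A] [DecidableEq A] {F : Type} [Field F]
  {D : Type} [Group D]

/-- the action of the torus on the group algebra -/
noncomputable def act (T : Dat p) (F : Type) [Field F] (j : A → ZMod p) :
    MonoidAlgebra F (Hs T A) →+* MonoidAlgebra F (Hs T A) :=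
  MonoidAlgebra.mapDomainRingHom F (ta j : Hs T A ≃* Hs T A).toMonoidHom

theorem act_single (j : A → ZMod p) (g : Hs T A) (c : F) :
    act T F j (single g c) = single (ta j g) c := by
  simp [act]

theorem inE_single (π : D →* Multiplicative (A → ZMod p)) (g : Hs T A) (c : F) :
    inE π F T (single g c) = single (SemidirectProduct.inl g) c := by
  simp [inE]

theorem act_comp (j k : A → ZMod p) (y : MonoidAlgebra F (Hs T A)) :
    act T F j (act T F k y) = act T F (j + k) y := by
  induction y using MonoidAlgebra.induction_linear with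
  | zero => simp
  | add a b ha hb => rw [map_add, map_add, map_add, ha, hb]
  | single g c => rw [act_single, act_single, act_single, ta_add]

theorem act_zero (y : MonoidAlgebra F (Hs T A)) : act T F (0 : A → ZMod p) y = y := by
  induction y using MonoidAlgebra.induction_linear with
  | zero => simp
  | add a b ha hb => rw [map_add, ha, hb]
  | single g c => rw [act_single, ta_zero]

/-- (F1) -/
theorem sg_inE (π : D →* Multiplicative (A → ZMod p)) (d : D) (y : MonoidAlgebra F (Hs T A)) :
    (single (SemidirectProduct.inr d) 1 : MonoidAlgebra F (GG T A π)) * inE π F T y =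
      inE π F T (act T F (Multiplicative.toAdd (π d)) y) * single (SemidirectProduct.inr d) 1 := by
  induction y using MonoidAlgebra.induction_linear with
  | zero => simp
  | add a b ha hb => rw [map_add, map_add, map_add, mul_add, add_mul, ha, hb]
  | single g c =>
    rw [act_single, inE_single, inE_single, single_mul_single, single_mul_single]
    congr 1
    · have h := SemidirectProduct.inl_aut (φ := (taHom T A).comp π) d g
      have h2 : ((taHom T A).comp π) d g = ta (Multiplicative.toAdd (π d)) g := rfl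
      rw [h2] at h
      rw [h]
      simp
    · rw [one_mul, mul_one]

/-- (F2) -/
theorem act_rho (hRHO : S_RHO) [Fact p.Prime] (C : Chr T F) (j : A → ZMod p)
    (y : MonoidAlgebra F (Hs T A)) : act T F j y * rho C j = rho C j * y := by
  obtain ⟨-, -, -, r4, -, -, -, -⟩ := hRHO p T A F C
  induction y using MonoidAlgebra.induction_linear with
  | zero => simp
  | add a b ha hb => rw [map_add, add_mul, mul_add, ha, hb]
  | single g c =>
    have h1 : (single g c : MonoidAlgebra F (Hs T A)) = c • single g 1 := by simp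
    have h2 : (single (ta j g) c : MonoidAlgebra F (Hs T A)) = c • single (ta j g) 1 := by simp
    rw [act_single, h1, h2, smul_mul_assoc, r4, mul_smul_comm]

/-- (F3) -/
theorem act_rho_self (hRHO : S_RHO) [Fact p.Prime] (C : Chr T F) (j k : A → ZMod p) :
    act T F k (rho C j) = rho C j := by
  obtain ⟨-, -, -, -, -, r6, -, -⟩ := hRHO p T A F C
  ext g
  obtain ⟨g', rfl⟩ := (ta k : Hs T A ≃* Hs T A).surjective g
  rw [r6]
  simp only [act, MonoidAlgebra.mapDomainRingHom_apply]
  exact Finsupp.mapDomain_apply (ta k : Hs T A ≃* Hs T A).injective _ _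

/-- the elements `d'` -/
noncomputable def dd (π : D →* Multiplicative (A → ZMod p)) (C : Chr T F) (d : D) :
    MonoidAlgebra F (GG T A π) :=
  inE π F T (rho C (-Multiplicative.toAdd (π d))) * single (SemidirectProduct.inr d) 1

theorem dd_one (hRHO : S_RHO) [Fact p.Prime] (π : D →* Multiplicative (A → ZMod p))
    (C : Chr T F) : dd π C 1 = inE π F T (ee C A) := by
  obtain ⟨-, r2, -, -, -, -, -, -⟩ := hRHO p T A F C
  unfold dd
  have h1 : -Multiplicative.toAdd (π 1) = 0 := by
    rw [map_one π]
    exact neg_zero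
  rw [h1, r2, map_one]
  exact mul_one _

theorem dd_mul (hRHO : S_RHO) [Fact p.Prime] (π : D →* Multiplicative (A → ZMod p))
    (C : Chr T F) (a b : D) : dd π C (a * b) = dd π C a * dd π C b := by
  obtain ⟨-, -, r3, -, -, -, -, -⟩ := hRHO p T A F C
  unfold dd
  have h1 : -Multiplicative.toAdd (π (a * b)) =
      -Multiplicative.toAdd (π a) + -Multiplicative.toAdd (π b) := by
    rw [map_mul π]
    exact neg_add _ _
  rw [mul_assoc, ← mul_assoc (single _ _), sg_inE, act_rho_self hRHO, mul_assoc,
    single_mul_single, one_mul, ← mul_assoc, ← map_mul, r3, h1, map_mul]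

theorem dd_comm (hRHO : S_RHO) [Fact p.Prime] (π : D →* Multiplicative (A → ZMod p))
    (C : Chr T F) (d : D) (y : MonoidAlgebra F (Hs T A)) :
    dd π C d * inE π F T y = inE π F T y * dd π C d := by
  unfold dd
  rw [mul_assoc, sg_inE, ← mul_assoc, ← map_mul, ← act_rho hRHO, act_comp, neg_add_cancel,
    act_zero, map_mul, mul_assoc]

theorem t (hHB : S_HB) (hRHO : S_RHO) : S_NIL := by
  intro p _ T A _ _ F _ _ C D _ _ hD π x hxx hex hth
  letI : Algebra (ZMod p) F := ZMod.algebra F p
  obtain ⟨-, r2, r3, -, -, -, -, -⟩ := hRHO p T A F C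
  obtain ⟨-, b2, -⟩ := hHB p T A F C
  refine key p hD (inE π F T) (dd π C) (dd_mul hRHO π C) (dd_comm hRHO π C) x.coeff.support
    (fun g => g.right)
    (fun g => single g.left (x.coeff g) * rho C (Multiplicative.toAdd (π g.right))) x ?_ hxx
  have h1 : x = ∑ g ∈ x.coeff.support, single g (x.coeff g) := by
    ext g
    classical
    simp [MonoidAlgebra.coeff_sum, MonoidAlgebra.coeff_single, Finsupp.single_apply]
  have h2 : ∑ g ∈ x.coeff.support,
      single g.left (x.coeff g) * rho C (Multiplicative.toAdd (π g.right)) = 0 := by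
    rw [← hth]
    unfold th Finsupp.sum
    refine Finset.sum_congr rfl fun g _ => ?_
    have h3 : (single g.left (x.coeff g) : MonoidAlgebra F (Hs T A)) =
      x.coeff g • single g.left 1 := by simp
    rw [h3, smul_mul_assoc]
  have h4 : ∑ g ∈ x.coeff.support,
      inE π F T (single g.left (x.coeff g) * rho C (Multiplicative.toAdd (π g.right))) *
        dd π C 1 = 0 := by
    rw [← Finset.sum_mul, ← map_sum, h2, map_zero, zero_mul]
  simp only [mul_sub]
  rw [Finset.sum_sub_distrib, h4, sub_zero]
  conv_lhs => rw [← hex, h1, Finset.mul_sum]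
  refine Finset.sum_congr rfl fun g _ => ?_
  unfold dd
  rw [← mul_assoc, ← map_mul, mul_assoc, r3, add_neg_cancel, r2, ← b2, map_mul, mul_assoc,
    inE_single, single_mul_single, mul_one]
  congr 2
  exact (SemidirectProduct.inl_left_mul_inr_right g).symm

end main

end Pool.Agent.Helper64.EP.NIL
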